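import Mathlib
import Pool.Agent.V11233.TT.Neg

/-!
# Modularity of total termination: true for countable signatures, false in general

(1) If `R₁` and `R₂` are totally terminating rewrite systems over disjoint countable (in particular,
finite) signatures, then `R₁ ∪ R₂` is totally terminating. No condition on duplicating rules is
needed, and the sets of rules may be infinite.

(2) The restriction on the signatures cannot be dropped: there are totally terminating rewrite
systems `R₁`, over a countable signature, and `R₂`, over a signature with `ℵ₁` symbols, whose
disjoint union is not totally terminating.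

Proof of (1). Let `A` be the well-ordered algebra of the ground terms of `R₁`. Its elements are
stretched to antitone functions from `ω_ω + 1` to `A`, with the operations defined pointwise and the
lexicographic order in which the large arguments are the most significant. This is a well-ordered
monotonic algebra compatible with `R₁`. For a cofinal sequence `a₀ < a₁ < …` of `A` take the
subalgebra generated by `ℵ_n` step functions with the values `a (n + 1)` and `a n`, for every `n`. Its
order type is `ω_ω`, because all its proper initial segments have less than `ℵ_ω` elements. The same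
is done for `R₂`, and so both systems have models on the same ordinal.

Proof of (2). The rules `k n (x, s ^ n zero) → k (n + 1) (x, x)` of `R₁` force that every element of a
well-ordered model is below one of the elements `s ^ n zero`. The rules
`T β (x) → U β γ n (L β (n + 1) (x), L γ (n + 1) (x), x)` and
`U β γ n (L β n (x), L γ n (x), d γ) → T γ (x)` of `R₂` (for `β < γ < ω₁`) force that no element is
above uncountably many of the constants `d γ`.
-/

set_option autoImplicit false

namespace Pool.Agent.Results.MP_8e1749_lc.TotTermModular

open Pool.Agent.V11233.TT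

theorem result :
    (∀ (F₁ F₂ : Type) [Countable F₁] [Countable F₂] (ar₁ : F₁ → ℕ) (ar₂ : F₂ → ℕ)
      (R₁ : Set (Term ar₁ ℕ × Term ar₁ ℕ)) (R₂ : Set (Term ar₂ ℕ × Term ar₂ ℕ)),
      TotallyTerminating R₁ → TotallyTerminating R₂ → TotallyTerminating (union R₁ R₂)) ∧
    (∃ (F₁ F₂ : Type) (ar₁ : F₁ → ℕ) (ar₂ : F₂ → ℕ)
      (R₁ : Set (Term ar₁ ℕ × Term ar₁ ℕ)) (R₂ : Set (Term ar₂ ℕ × Term ar₂ ℕ)),
      IsTRS R₁ ∧ IsTRS R₂ ∧ TotallyTerminating R₁ ∧ TotallyTerminating R₂ ∧
        ¬ TotallyTerminating (union R₁ R₂)) :=
  ⟨fun _ _ _ _ _ _ R₁ R₂ h₁ h₂ => modular R₁ R₂ h₁ h₂,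
    S1, S2, ar1, ar2, R1, R2, isTRS_R1, isTRS_R2, tt_R1, tt_R2, not_tt_union⟩

end Pool.Agent.Results.MP_8e1749_lc.TotTermModular
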